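import Pool.Agent.W69.MD.Step
import Pool.Agent.W851.Had.Tower

/-!
Sign matrices of every order `n` with determinant at least `n ^ (n / 2) * exp (- 2 * 2 ^ t)`,
`t = C ^ (1 + log* n)`.
-/

set_option autoImplicit false

namespace Pool.Agent.W69.MD

open Finset Matrix Pool.Agent.W851.Had

/-- a sign matrix of order `n` whose determinant loses at most the factor `exp L` -/
def Good (n : ℕ) (L : ℝ) : Prop :=
  ∃ B : Matrix (Fin n) (Fin n) ℤ, (∀ i j, B i j = 1 ∨ B i j = -1) ∧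
    (n : ℝ) ^ ((n : ℝ) / 2) * Real.exp (-L) ≤ |(B.det : ℝ)|

theorem Good.mono {n : ℕ} {L L' : ℝ} (h : Good n L) (hL : L ≤ L') : Good n L' := by
  obtain ⟨B, hB, hd⟩ := h
  refine ⟨B, hB, le_trans ?_ hd⟩
  apply mul_le_mul_of_nonneg_left _ (by positivity)
  exact Real.exp_le_exp.2 (by linarith)

theorem good_one : Good 1 0 := by
  refine ⟨Matrix.of fun _ _ => 1, fun _ _ => Or.inl rfl, ?_⟩
  simp

theorem good_step {n : ℕ} (hn : 1 ≤ n) {L : ℝ} (h : Good n L) : Good (n + 1) (L + 2) := by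
  obtain ⟨A, hA, hd⟩ := h
  have hn0 : (0 : ℝ) < n := by exact_mod_cast hn
  have hn1 : (1 : ℝ) ≤ n := by exact_mod_cast hn
  have hpos : 0 < (n : ℝ) ^ ((n : ℝ) / 2) * Real.exp (-L) := by positivity
  have hne : A.det ≠ 0 := by
    intro h0
    rw [h0] at hd
    simp only [Int.cast_zero, abs_zero] at hd
    linarith
  obtain ⟨B, hB, hBd⟩ := step hn A hA hne
  refine ⟨B, hB, le_trans ?_ hBd⟩
  have hsq : Real.sqrt n = (n : ℝ) ^ (1 / 2 : ℝ) := Real.sqrt_eq_rpow _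
  have h1 : 5 / 9 * Real.sqrt n * ((n : ℝ) ^ ((n : ℝ) / 2) * Real.exp (-L)) ≤
      5 / 9 * Real.sqrt n * |(A.det : ℝ)| := mul_le_mul_of_nonneg_left hd (by positivity)
  refine le_trans ?_ h1
  have h2 : Real.sqrt n * (n : ℝ) ^ ((n : ℝ) / 2) = (n : ℝ) ^ (((n : ℝ) + 1) / 2) := by
    rw [hsq, ← Real.rpow_add hn0]
    congr 1
    ring
  have h3 : ((n + 1 : ℕ) : ℝ) ^ (((n + 1 : ℕ) : ℝ) / 2) ≤ Real.exp 1 * (n : ℝ) ^ (((n : ℝ) + 1) / 2) := by
    have e1 : ((n + 1 : ℕ) : ℝ) = n * (1 + 1 / n) := by push_cast; field_simp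
    have e2 : (((n + 1 : ℕ) : ℝ) / 2) = ((n : ℝ) + 1) / 2 := by push_cast; ring
    rw [e2, e1, Real.mul_rpow hn0.le (by positivity), mul_comm]
    apply mul_le_mul_of_nonneg_right _ (by positivity)
    calc (1 + 1 / (n : ℝ)) ^ (((n : ℝ) + 1) / 2) ≤ (Real.exp (1 / n)) ^ (((n : ℝ) + 1) / 2) := by
          apply Real.rpow_le_rpow (by positivity) _ (by positivity)
          have := Real.add_one_le_exp (1 / (n : ℝ))
          linarith
      _ = Real.exp (1 / n * (((n : ℝ) + 1) / 2)) := (Real.exp_mul _ _).symm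
      _ ≤ Real.exp 1 := by
          apply Real.exp_le_exp.2
          rw [div_mul_eq_mul_div, one_mul, div_le_one hn0]
          linarith
  have h4 : Real.exp 1 * Real.exp (-(L + 2)) ≤ 5 / 9 * Real.exp (-L) := by
    have e3 : Real.exp 1 * Real.exp (-(L + 2)) = Real.exp (-1) * Real.exp (-L) := by
      rw [← Real.exp_add, ← Real.exp_add]
      congr 1
      ring
    rw [e3]
    apply mul_le_mul_of_nonneg_right _ (Real.exp_pos _).le
    rw [Real.exp_neg, inv_le_comm₀ (Real.exp_pos _) (by norm_num)]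
    have := Real.exp_one_gt_d9
    norm_num
    linarith
  have hp : 0 ≤ (n : ℝ) ^ (((n : ℝ) + 1) / 2) := by positivity
  calc ((n + 1 : ℕ) : ℝ) ^ (((n + 1 : ℕ) : ℝ) / 2) * Real.exp (-(L + 2))
      ≤ (Real.exp 1 * (n : ℝ) ^ (((n : ℝ) + 1) / 2)) * Real.exp (-(L + 2)) :=
        mul_le_mul_of_nonneg_right h3 (Real.exp_pos _).le
    _ = (n : ℝ) ^ (((n : ℝ) + 1) / 2) * (Real.exp 1 * Real.exp (-(L + 2))) := by ring
    _ ≤ (n : ℝ) ^ (((n : ℝ) + 1) / 2) * (5 / 9 * Real.exp (-L)) :=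
        mul_le_mul_of_nonneg_left h4 hp
    _ = 5 / 9 * Real.sqrt n * ((n : ℝ) ^ ((n : ℝ) / 2) * Real.exp (-L)) := by
        rw [← h2]; ring

theorem good_add {n : ℕ} (hn : 1 ≤ n) {L : ℝ} (h : Good n L) (d : ℕ) :
    Good (n + d) (L + 2 * d) := by
  induction d with
  | zero => simpa using h
  | succ d ih =>
    have := good_step (by omega) ih
    rw [← add_assoc]
    apply this.mono
    push_cast
    linarith

theorem good_had {n : ℕ} (h : Pool.Agent.H108R3.Had.HasHad n) : Good n 0 := by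
  obtain ⟨H, hH, hHH⟩ := h
  refine ⟨H, hH, ?_⟩
  have h1 : H.det ^ 2 = (n : ℤ) ^ n := by
    have h2 := congrArg Matrix.det hHH
    rw [Matrix.det_mul, Matrix.det_transpose, Matrix.det_smul, Matrix.det_one, Fintype.card_fin,
      mul_one] at h2
    rw [sq, h2]
  have h2 : (H.det : ℝ) ^ 2 = (n : ℝ) ^ n := by exact_mod_cast h1
  rw [neg_zero, Real.exp_zero, mul_one]
  have hn : (0 : ℝ) ≤ n := Nat.cast_nonneg n
  have h3 : ((n : ℝ) ^ ((n : ℝ) / 2)) ^ 2 = (n : ℝ) ^ n := by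
    rw [← Real.rpow_natCast, ← Real.rpow_mul hn]
    have : (n : ℝ) / 2 * ((2 : ℕ) : ℝ) = n := by push_cast; ring
    rw [this, Real.rpow_natCast]
  have h4 : ((n : ℝ) ^ ((n : ℝ) / 2)) ^ 2 ≤ |(H.det : ℝ)| ^ 2 := by
    rw [h3, sq_abs, h2]
  exact le_of_sq_le_sq h4 (abs_nonneg _)

/-- all orders -/
theorem good_all : ∃ C : ℕ, 2 ≤ C ∧ ∀ k n : ℕ, 0 < n → n ≤ tow k →
    Good n (2 * 2 ^ (C ^ (k + 1))) := by
  obtain ⟨C, hC, h⟩ := main_had
  refine ⟨C, hC, fun k n hn hk => ?_⟩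
  set t := C ^ (k + 1) with ht
  set q := n / 2 ^ t with hq
  have h2t : 0 < 2 ^ t := by positivity
  have hdm := Nat.div_add_mod n (2 ^ t)
  have hmod := Nat.mod_lt n h2t
  rw [← hq] at hdm
  rcases Nat.eq_zero_or_pos q with h0 | h0
  · rw [h0, mul_zero, zero_add] at hdm
    have h1 := good_add le_rfl good_one (n - 1)
    have e1 : 1 + (n - 1) = n := by omega
    rw [e1] at h1
    apply h1.mono
    have h5 : ((n - 1 : ℕ) : ℝ) ≤ 2 ^ t := by
      have : n - 1 ≤ 2 ^ t := by omega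
      exact_mod_cast this
    linarith
  · have hqn : q ≤ tow k := (Nat.div_le_self _ _).trans hk
    have hhad := good_had (h k q t hqn le_rfl)
    have h1 := good_add (Nat.mul_pos h2t h0) hhad (n % 2 ^ t)
    rw [hdm] at h1
    apply h1.mono
    have h5 : ((n % 2 ^ t : ℕ) : ℝ) ≤ 2 ^ t := by exact_mod_cast hmod.le
    linarith

/-- the sign of the determinant -/
theorem exists_pos {n : ℕ} (hn : 0 < n) {x : ℝ} (hx : ∃ B : Matrix (Fin n) (Fin n) ℤ,
    (∀ i j, B i j = 1 ∨ B i j = -1) ∧ x ≤ |(B.det : ℝ)|) :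
    ∃ B : Matrix (Fin n) (Fin n) ℤ, (∀ i j, B i j = 1 ∨ B i j = -1) ∧ x ≤ (B.det : ℝ) := by
  obtain ⟨B, hB, hd⟩ := hx
  obtain ⟨m, rfl⟩ := Nat.exists_eq_succ_of_ne_zero hn.ne'
  rcases le_total 0 (B.det : ℝ) with h0 | h0
  · exact ⟨B, hB, by rwa [abs_of_nonneg h0] at hd⟩
  · refine ⟨B.updateRow 0 (fun j => (-1 : ℤ) * B 0 j), ?_, ?_⟩
    · intro i j
      by_cases hi : i = 0
      · subst hi
        rw [Matrix.updateRow_self]
        rcases hB 0 j with h | h <;> rw [h] <;> norm_num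
      · rw [Matrix.updateRow_ne hi]
        exact hB i j
    · have h4 : (B.updateRow 0 (fun j => (-1 : ℤ) * B 0 j)).det = -B.det := by
        have h5 := Matrix.det_updateRow_smul B 0 (-1 : ℤ) (B 0)
        have h6 : B.updateRow 0 (B 0) = B := Matrix.updateRow_eq_self B 0
        rw [h6] at h5
        have h7 : (fun j => (-1 : ℤ) * B 0 j) = (-1 : ℤ) • B 0 := by
          funext j; simp
        rw [h7, h5]; ring
      rw [h4]
      rw [abs_of_nonpos h0] at hd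
      rw [Int.cast_neg]
      exact hd

/-! ### iterated logarithms -/

theorem lt_tow (n : ℕ) : n < tow n := by
  induction n with
  | zero => simp [tow_zero]
  | succ n ih =>
    rw [tow_succ]
    have := Nat.lt_two_pow_self (n := tow n)
    omega

theorem tow_mono {m n : ℕ} (h : m ≤ n) : tow m ≤ tow n := by
  induction n, h using Nat.le_induction with
  | base => exact le_rfl
  | succ n _ ih =>
    rw [tow_succ]
    exact ih.trans Nat.lt_two_pow_self.le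

theorem log_tow (a : ℕ) (x : ℝ) (hx : (tow (a + 2) : ℝ) ≤ x) : (tow a : ℝ) ≤ Real.log x := by
  have h0 : (0 : ℝ) < tow (a + 2) := by exact_mod_cast tow_pos _
  refine le_trans ?_ (Real.log_le_log h0 hx)
  rw [tow_succ]
  push_cast
  rw [Real.log_pow, tow_succ]
  have h1 : tow a < 2 ^ tow a := Nat.lt_two_pow_self
  have h2 : 1 ≤ tow a := tow_pos a
  have h3 : 2 * tow a ≤ 2 ^ tow a := by
    obtain ⟨m, hm⟩ := Nat.exists_eq_add_of_le h2
    rw [hm, pow_add, pow_one]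
    have := Nat.lt_two_pow_self (n := m)
    omega
  have h4 : 2 * (tow a : ℝ) ≤ ((2 ^ tow a : ℕ) : ℝ) := by exact_mod_cast h3
  have h5 : (0.69 : ℝ) ≤ Real.log 2 := by have := Real.log_two_gt_d9; linarith
  have h6 : (0 : ℝ) ≤ tow a := Nat.cast_nonneg _
  nlinarith

theorem iter_log_tow (j : ℕ) : ∀ (a : ℕ) (x : ℝ), (tow (a + 2 * j) : ℝ) ≤ x →
    (tow a : ℝ) ≤ Real.log^[j] x := by
  induction j with
  | zero => intro a x hx; simpa using hx
  | succ j ih =>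
    intro a x hx
    rw [Function.iterate_succ_apply]
    apply ih
    apply log_tow
    have e : a + 2 * j + 2 = a + 2 * (j + 1) := by ring
    rw [e]
    exact hx

theorem exp_le_tow (C c : ℕ) (hC : 2 ≤ C) : ∃ a₀ : ℕ, ∀ a, a₀ ≤ a →
    Real.exp (2 * 2 ^ (C ^ (a + c))) ≤ tow a := by
  -- `C ^ (a + c) + 2 ≤ tow (a - 2)` for large `a`
  obtain ⟨b₀, hb₀⟩ : ∃ b₀ : ℕ, ∀ b, b₀ ≤ b → C * (b + 4 + c) + 1 ≤ 2 ^ (b + 1) := by
    have h1 : Filter.Tendsto (fun n : ℕ => (n : ℝ) ^ 1 / 2 ^ n) Filter.atTop (nhds 0) :=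
      tendsto_pow_const_div_const_pow_of_one_lt 1 (by norm_num)
    have h2 := h1.eventually (gt_mem_nhds (show (0 : ℝ) < 1 / (C * (c + 5) + 1) by positivity))
    obtain ⟨b₀, hb₀⟩ := Filter.eventually_atTop.1 h2
    refine ⟨b₀ + 1, fun b hb => ?_⟩
    have h3 := hb₀ b (by omega)
    rw [pow_one, div_lt_div_iff₀ (by positivity) (by positivity), one_mul] at h3
    have h4 : b * (C * (c + 5) + 1) < 2 ^ b := by exact_mod_cast h3
    have h5 : C * (b + 4 + c) + 1 ≤ b * (C * (c + 5) + 1) := by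
      have : 1 ≤ b := by omega
      nlinarith [Nat.zero_le (C * b), Nat.zero_le (C * c), Nat.mul_le_mul_left (C * c) this,
        Nat.mul_le_mul_left C this]
    calc C * (b + 4 + c) + 1 ≤ b * (C * (c + 5) + 1) := h5
      _ ≤ 2 ^ b := h4.le
      _ ≤ 2 ^ (b + 1) := Nat.pow_le_pow_right (by norm_num) (by omega)
  refine ⟨b₀ + 4, fun a ha => ?_⟩
  obtain ⟨b, rfl⟩ : ∃ b, a = b + 4 := ⟨a - 4, by omega⟩
  have hb : b₀ ≤ b := by omega
  have h1 : C ^ (b + 4 + c) + 2 ≤ tow (b + 2) := by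
    have h2 : C ^ (b + 4 + c) ≤ 2 ^ (C * (b + 4 + c)) := by
      calc C ^ (b + 4 + c) ≤ (2 ^ C) ^ (b + 4 + c) := Nat.pow_le_pow_left Nat.lt_two_pow_self.le _
        _ = 2 ^ (C * (b + 4 + c)) := (pow_mul _ _ _).symm
    have h3 : 2 ^ (C * (b + 4 + c)) + 2 ≤ 2 ^ (C * (b + 4 + c) + 1) := by
      have : 2 ≤ 2 ^ (C * (b + 4 + c)) := by
        calc 2 = 2 ^ 1 := rfl
          _ ≤ _ := Nat.pow_le_pow_right (by norm_num) (by
            have : 0 < C * (b + 4 + c) := by positivity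
            omega)
      rw [pow_succ]; omega
    have h4 : 2 ^ (C * (b + 4 + c) + 1) ≤ 2 ^ (2 ^ (b + 1)) :=
      Nat.pow_le_pow_right (by norm_num) (hb₀ b hb)
    have h5 : 2 ^ (2 ^ (b + 1)) ≤ tow (b + 2) := by
      rw [tow_succ, tow_succ]
      exact Nat.pow_le_pow_right (by norm_num) (Nat.pow_le_pow_right (by norm_num) (lt_tow b))
    omega
  have h6 : Real.exp (2 * 2 ^ (C ^ (b + 4 + c))) ≤ 2 ^ (2 ^ (C ^ (b + 4 + c) + 2)) := by
    have e1 : (2 : ℝ) ^ (2 ^ (C ^ (b + 4 + c) + 2)) =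
        Real.exp (Real.log 2 * ((2 ^ (C ^ (b + 4 + c) + 2) : ℕ) : ℝ)) := by
      rw [Real.exp_mul, Real.exp_log (by norm_num), Real.rpow_natCast]
    rw [e1]
    apply Real.exp_le_exp.2
    push_cast
    generalize C ^ (b + 4 + c) = u
    rw [pow_add]
    have h7 : (0.69 : ℝ) ≤ Real.log 2 := by have := Real.log_two_gt_d9; linarith
    have h8 : (0 : ℝ) < 2 ^ u := by positivity
    nlinarith
  refine h6.trans ?_
  have h9 : 2 ^ (2 ^ (C ^ (b + 4 + c) + 2)) ≤ tow (b + 4) := by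
    rw [show b + 4 = (b + 2) + 1 + 1 by ring, tow_succ, tow_succ]
    exact Nat.pow_le_pow_right (by norm_num) (Nat.pow_le_pow_right (by norm_num) h1)
  exact_mod_cast h9

/-- every iterated logarithm -/
theorem iter_log (j : ℕ) : ∃ N : ℕ, ∀ n : ℕ, N ≤ n → 1 ≤ Real.log^[j] (n : ℝ) ∧
    ∃ B : Matrix (Fin n) (Fin n) ℤ, (∀ i j, B i j = 1 ∨ B i j = -1) ∧
      (n : ℝ) ^ ((n : ℝ) / 2) / Real.log^[j] (n : ℝ) ≤ (B.det : ℝ) := by
  obtain ⟨C, hC, h⟩ := good_all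
  obtain ⟨a₀, ha₀⟩ := exp_le_tow C (2 * j + 2) hC
  refine ⟨tow (a₀ + 2 * j) + 1, fun n hn => ?_⟩
  have hex : ∃ k, n ≤ tow k := ⟨n, (lt_tow n).le⟩
  obtain ⟨k, hk1, hk2⟩ : ∃ k, n ≤ tow k ∧ ∀ i < k, tow i < n :=
    ⟨Nat.find hex, Nat.find_spec hex, fun i hi => not_le.1 (Nat.find_min hex hi)⟩
  have hka : a₀ + 2 * j < k := by
    by_contra hcon
    push Not at hcon
    have := hk1.trans (tow_mono hcon)
    omega
  obtain ⟨a, ha⟩ : ∃ a, k = a + 2 * j + 1 := ⟨k - (2 * j + 1), by omega⟩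
  have haa : a₀ ≤ a := by omega
  have h1 : (tow (a + 2 * j) : ℝ) ≤ n := by
    exact_mod_cast (hk2 (a + 2 * j) (by omega)).le
  have h2 := iter_log_tow j a n h1
  have h3 := ha₀ a haa
  have h4 : (1 : ℝ) ≤ Real.log^[j] (n : ℝ) := by
    refine le_trans ?_ h2
    exact_mod_cast tow_pos a
  refine ⟨h4, ?_⟩
  apply exists_pos (by omega)
  obtain ⟨B, hB, hd⟩ := h k n (by omega) hk1
  refine ⟨B, hB, le_trans ?_ hd⟩
  rw [div_eq_mul_inv]
  apply mul_le_mul_of_nonneg_left _ (by positivity)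
  rw [Real.exp_neg]
  apply inv_anti₀ (Real.exp_pos _)
  refine le_trans ?_ (h3.trans h2)
  have e : k + 1 = a + (2 * j + 2) := by omega
  rw [e]

/-- the bound with the tower function -/
theorem log_star : ∃ C : ℕ, ∀ k n : ℕ, 0 < n → n ≤ (fun x : ℕ => 2 ^ x)^[k] 1 →
    ∃ B : Matrix (Fin n) (Fin n) ℤ, (∀ i j, B i j = 1 ∨ B i j = -1) ∧
      (n : ℝ) ^ ((n : ℝ) / 2) * Real.exp (-2 ^ (C ^ (k + 1))) ≤ (B.det : ℝ) := by
  obtain ⟨C, hC, h⟩ := good_all
  refine ⟨C + 1, fun k n hn hk => ?_⟩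
  apply exists_pos hn
  apply (h k n hn hk).mono
  have h1 : C ^ (k + 1) + 1 ≤ (C + 1) ^ (k + 1) := by
    have := Nat.pow_lt_pow_left (show C < C + 1 by omega) (show k + 1 ≠ 0 by omega)
    omega
  calc (2 : ℝ) * 2 ^ (C ^ (k + 1)) = 2 ^ (C ^ (k + 1) + 1) := by rw [pow_succ]; ring
    _ ≤ 2 ^ ((C + 1) ^ (k + 1)) := pow_le_pow_right₀ (by norm_num) h1

end Pool.Agent.W69.MD
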