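import Mathlib

/-!
One row and one column more: every nonsingular sign matrix of order `m` has a bordering which
multiplies the determinant by at least `(5 / 9) * √m`.
-/

set_option autoImplicit false

namespace Pool.Agent.W69.MD

open Finset Matrix

/-- signs which make a sum of quartic polynomials in linear forms at least its mean value -/
theorem exists_signs {ι : Type*} (K : Finset ι) (α β : ι → ℝ) (hβ : ∀ k, 0 ≤ β k) :
    ∀ (m : ℕ) (r : ι → Fin m → ℝ) (c : ι → ℝ), ∃ b : Fin m → ℤ, (∀ i, b i = 1 ∨ b i = -1) ∧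
      ∑ k ∈ K, (α k * (c k ^ 2 + ∑ i, r k i ^ 2) -
        β k * (c k ^ 4 + 6 * c k ^ 2 * ∑ i, r k i ^ 2 + 3 * (∑ i, r k i ^ 2) ^ 2)) ≤
      ∑ k ∈ K, (α k * (c k + ∑ i, r k i * b i) ^ 2 - β k * (c k + ∑ i, r k i * b i) ^ 4) := by
  intro m
  induction m with
  | zero =>
    intro r c
    refine ⟨fun _ => 1, fun i => i.elim0, ?_⟩
    apply Finset.sum_le_sum
    intro k _
    simp
  | succ m ih =>
    intro r c
    set S : ι → ℝ := fun k => ∑ i : Fin m, r k i.succ ^ 2 with hS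
    set G : ι → ℝ → ℝ := fun k x => α k * (x ^ 2 + S k) - β k * (x ^ 4 + 6 * x ^ 2 * S k + 3 * S k ^ 2) with hG
    have hpt : ∀ k, α k * (c k ^ 2 + ∑ i, r k i ^ 2) -
        β k * (c k ^ 4 + 6 * c k ^ 2 * ∑ i, r k i ^ 2 + 3 * (∑ i, r k i ^ 2) ^ 2) ≤
        (G k (c k + r k 0) + G k (c k - r k 0)) / 2 := by
      intro k
      rw [Fin.sum_univ_succ]
      simp only [hG]
      have h1 : 0 ≤ β k * (r k 0 ^ 4) := mul_nonneg (hβ k) (by positivity)
      have e : (G k (c k + r k 0) + G k (c k - r k 0)) / 2 -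
        (α k * (c k ^ 2 + (r k 0 ^ 2 + S k)) -
        β k * (c k ^ 4 + 6 * c k ^ 2 * (r k 0 ^ 2 + S k) + 3 * (r k 0 ^ 2 + S k) ^ 2)) =
        2 * (β k * (r k 0 ^ 4)) := by
        simp only [hG]; ring
      simp only [hG] at e
      have e2 : ∑ i : Fin m, r k i.succ ^ 2 = S k := rfl
      rw [e2]
      linarith
    have hsum : ∑ k ∈ K, (α k * (c k ^ 2 + ∑ i, r k i ^ 2) -
        β k * (c k ^ 4 + 6 * c k ^ 2 * ∑ i, r k i ^ 2 + 3 * (∑ i, r k i ^ 2) ^ 2)) ≤
        (∑ k ∈ K, G k (c k + r k 0) + ∑ k ∈ K, G k (c k - r k 0)) / 2 := by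
      rw [← Finset.sum_add_distrib, Finset.sum_div]
      exact Finset.sum_le_sum fun k _ => hpt k
    obtain ⟨e, he, hle⟩ : ∃ e : ℤ, (e = 1 ∨ e = -1) ∧
        ∑ k ∈ K, (α k * (c k ^ 2 + ∑ i, r k i ^ 2) -
        β k * (c k ^ 4 + 6 * c k ^ 2 * ∑ i, r k i ^ 2 + 3 * (∑ i, r k i ^ 2) ^ 2)) ≤
        ∑ k ∈ K, G k (c k + r k 0 * e) := by
      rcases le_total (∑ k ∈ K, G k (c k + r k 0)) (∑ k ∈ K, G k (c k - r k 0)) with h | h
      · refine ⟨-1, Or.inr rfl, ?_⟩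
        have e1 : ∀ k, c k + r k 0 * ((-1 : ℤ) : ℝ) = c k - r k 0 := fun k => by push_cast; ring
        simp_rw [e1]
        linarith
      · refine ⟨1, Or.inl rfl, ?_⟩
        have e1 : ∀ k, c k + r k 0 * ((1 : ℤ) : ℝ) = c k + r k 0 := fun k => by push_cast; ring
        simp_rw [e1]
        linarith
    obtain ⟨b, hb, hb2⟩ := ih (fun k i => r k i.succ) (fun k => c k + r k 0 * e)
    refine ⟨Fin.cons e b, ?_, ?_⟩
    · intro i
      refine Fin.cases ?_ (fun i => ?_) i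
      · simpa using he
      · simpa using hb i
    · refine hle.trans (hb2.trans (le_of_eq ?_))
      apply Finset.sum_congr rfl
      intro k _
      have e3 : c k + ∑ i : Fin (m + 1), r k i * ((Fin.cons e b : Fin (m + 1) → ℤ) i : ℝ) =
          c k + r k 0 * e + ∑ i : Fin m, r k i.succ * (b i : ℝ) := by
        rw [Fin.sum_univ_succ]
        simp only [Fin.cons_zero, Fin.cons_succ]
        ring
      rw [e3]

/-- the quartic minorant of the absolute value -/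
theorem abs_ge_quartic (x s : ℝ) (hs : 0 < s) : 1 / s * x ^ 2 - 4 / 27 / s ^ 3 * x ^ 4 ≤ |x| := by
  set y := |x| / s with hy
  have hy0 : 0 ≤ y := by positivity
  have hx : |x| = y * s := by rw [hy]; field_simp
  have h2 : x ^ 2 = (y * s) ^ 2 := by rw [← hx, sq_abs]
  have h4 : x ^ 4 = (y * s) ^ 4 := by
    have : x ^ 4 = (x ^ 2) ^ 2 := by ring
    rw [this, h2]; ring
  rw [h2, h4, hx]
  have e : 1 / s * (y * s) ^ 2 - 4 / 27 / s ^ 3 * (y * s) ^ 4 = s * (y ^ 2 - 4 / 27 * y ^ 4) := by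
    field_simp
  rw [e]
  have h5 : y ^ 2 - 4 / 27 * y ^ 4 ≤ y := by
    have h6 : 0 ≤ y * ((1 - 2 * y / 3) ^ 2 * (1 + y / 3)) := by positivity
    nlinarith
  nlinarith

/-- a sign vector with large `l1` image -/
theorem exists_l1 {m : ℕ} (M : Matrix (Fin m) (Fin m) ℝ) (s : ℝ) (hs : 0 < s)
    (hM : ∀ k, s ^ 2 ≤ ∑ i, M k i ^ 2) : ∃ b : Fin m → ℤ, (∀ i, b i = 1 ∨ b i = -1) ∧
      5 / 9 * s * m ≤ ∑ k, |∑ i, M k i * b i| := by
  set σ : Fin m → ℝ := fun k => Real.sqrt (∑ i, M k i ^ 2) with hσ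
  have hσs : ∀ k, s ≤ σ k := fun k => Real.le_sqrt_of_sq_le (hM k)
  have hσ0 : ∀ k, 0 < σ k := fun k => hs.trans_le (hσs k)
  have hσ2 : ∀ k, ∑ i, M k i ^ 2 = σ k ^ 2 := fun k =>
    (Real.sq_sqrt (Finset.sum_nonneg fun i _ => sq_nonneg _)).symm
  obtain ⟨b, hb, hb2⟩ := exists_signs (univ : Finset (Fin m)) (fun k => 1 / σ k)
    (fun k => 4 / 27 / σ k ^ 3) (fun k => by have := hσ0 k; positivity) m (fun k i => M k i) (fun _ => 0)
  refine ⟨b, hb, ?_⟩
  have h1 : ∑ k : Fin m, (1 / σ k * ((0 : ℝ) ^ 2 + ∑ i, M k i ^ 2) - 4 / 27 / σ k ^ 3 *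
      ((0 : ℝ) ^ 4 + 6 * (0 : ℝ) ^ 2 * ∑ i, M k i ^ 2 + 3 * (∑ i, M k i ^ 2) ^ 2)) =
      ∑ k, 5 / 9 * σ k := by
    apply Finset.sum_congr rfl
    intro k _
    rw [hσ2]
    have := (hσ0 k).ne'
    field_simp
    ring
  have h2 : ∑ k : Fin m, 5 / 9 * s ≤ ∑ k, 5 / 9 * σ k :=
    Finset.sum_le_sum fun k _ => by have := hσs k; linarith
  have h3 : ∑ k : Fin m, 5 / 9 * s = 5 / 9 * s * m := by
    rw [Finset.sum_const, Finset.card_univ, Fintype.card_fin, nsmul_eq_mul]; ring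
  have h4 : ∑ k : Fin m, (1 / σ k * ((0 : ℝ) + ∑ i, M k i * b i) ^ 2 - 4 / 27 / σ k ^ 3 *
      ((0 : ℝ) + ∑ i, M k i * b i) ^ 4) ≤ ∑ k, |∑ i, M k i * b i| := by
    apply Finset.sum_le_sum
    intro k _
    rw [zero_add]
    exact abs_ge_quartic _ _ (hσ0 k)
  linarith

/-- rows of the inverse are not short -/
theorem inv_row {m : ℕ} (A : Matrix (Fin m) (Fin m) ℝ) (hA : ∀ i j, A i j = 1 ∨ A i j = -1)
    (hdet : IsUnit A.det) (k : Fin m) : (1 / Real.sqrt m) ^ 2 ≤ ∑ i, A⁻¹ k i ^ 2 := by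
  have h1 : ∑ i, A⁻¹ k i * A i k = 1 := by
    have := congrFun (congrFun (Matrix.nonsing_inv_mul A hdet) k) k
    rw [Matrix.mul_apply, Matrix.one_apply_eq] at this
    exact this
  have h2 := Finset.sum_mul_sq_le_sq_mul_sq univ (fun i => A⁻¹ k i) (fun i => A i k)
  rw [h1] at h2
  have h3 : ∑ i, A i k ^ 2 = m := by
    have : ∀ i, A i k ^ 2 = 1 := fun i => by rcases hA i k with h | h <;> rw [h] <;> norm_num
    simp_rw [this]
    simp
  rw [h3] at h2
  have hm : (0 : ℝ) < m := by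
    have : 0 < m := k.pos
    exact_mod_cast this
  rw [div_pow, Real.sq_sqrt hm.le, one_pow, div_le_iff₀ hm]
  simpa using h2

/-- **The step**: from order `m` to order `m + 1`. -/
theorem step {m : ℕ} (hm : 1 ≤ m) (A : Matrix (Fin m) (Fin m) ℤ)
    (hA : ∀ i j, A i j = 1 ∨ A i j = -1) (hdet : A.det ≠ 0) :
    ∃ B : Matrix (Fin (m + 1)) (Fin (m + 1)) ℤ, (∀ i j, B i j = 1 ∨ B i j = -1) ∧
      5 / 9 * Real.sqrt m * |(A.det : ℝ)| ≤ |(B.det : ℝ)| := by
  classical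
  have hm0 : (0 : ℝ) < m := by exact_mod_cast hm
  set A' : Matrix (Fin m) (Fin m) ℝ := A.map (Int.cast : ℤ → ℝ) with hA'
  have hdet' : A'.det = (A.det : ℝ) := by
    rw [hA']
    exact (Int.cast_det A).symm
  have hne : A'.det ≠ 0 := by rw [hdet']; exact_mod_cast hdet
  have hun : IsUnit A'.det := isUnit_iff_ne_zero.2 hne
  have hA1 : ∀ i j, A' i j = 1 ∨ A' i j = -1 := by
    intro i j
    rw [hA', Matrix.map_apply]
    rcases hA i j with h | h <;> rw [h] <;> norm_num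
  obtain ⟨b, hb, hb2⟩ := exists_l1 A'⁻¹ (1 / Real.sqrt m) (by positivity) (inv_row A' hA1 hun)
  set v : Fin m → ℝ := fun k => ∑ i, A'⁻¹ k i * b i with hv
  set c : Fin m → ℤ := fun k => if 0 ≤ v k then -1 else 1 with hc
  have hcv : ∀ k, (c k : ℝ) * v k = -|v k| := by
    intro k
    simp only [hc]
    split_ifs with h
    · rw [abs_of_nonneg h]; push_cast; ring
    · rw [abs_of_neg (by linarith)]; push_cast; ring
  set F : Matrix (Fin m ⊕ Fin 1) (Fin m ⊕ Fin 1) ℤ :=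
    Matrix.fromBlocks A (Matrix.of fun i _ => b i) (Matrix.of fun _ j => c j) (Matrix.of fun _ _ => 1)
    with hF
  have hF1 : ∀ i j, F i j = 1 ∨ F i j = -1 := by
    rintro (i | i) (j | j)
    · exact hA i j
    · exact hb i
    · show c j = 1 ∨ c j = -1
      simp only [hc]
      split_ifs
      · exact Or.inr rfl
      · exact Or.inl rfl
    · exact Or.inl rfl
  have hFdet : (F.det : ℝ) = A'.det * (1 + ∑ k, |v k|) := by
    have h1 : (F.det : ℝ) = (F.map (Int.cast : ℤ → ℝ)).det := Int.cast_det F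
    have h2 : F.map (Int.cast : ℤ → ℝ) = Matrix.fromBlocks A' (Matrix.of fun i _ => (b i : ℝ))
        (Matrix.of fun _ j => (c j : ℝ)) (Matrix.of fun _ _ => (1 : ℝ)) := by
      ext i j
      rcases i with i | i <;> rcases j with j | j <;> simp [hF, hA']
    have : Invertible A' := A'.invertibleOfIsUnitDet hun
    rw [h1, h2, Matrix.det_fromBlocks₁₁, Matrix.invOf_eq_nonsing_inv]
    congr 1
    rw [Matrix.det_fin_one, Matrix.sub_apply, Matrix.mul_assoc, Matrix.mul_apply]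
    simp only [Matrix.of_apply]
    have h3 : ∀ k : Fin m, (c k : ℝ) * (A'⁻¹ * (Matrix.of fun i (_ : Fin 1) => (b i : ℝ))) k 0 = -|v k| := by
      intro k
      rw [Matrix.mul_apply]
      simp only [Matrix.of_apply]
      exact hcv k
    rw [Finset.sum_congr rfl fun k _ => h3 k, Finset.sum_neg_distrib]
    ring
  refine ⟨F.submatrix finSumFinEquiv.symm finSumFinEquiv.symm, fun i j => hF1 _ _, ?_⟩
  rw [Matrix.det_submatrix_equiv_self, hFdet, abs_mul, hdet']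
  have h5 : 5 / 9 * Real.sqrt m ≤ abs (1 + ∑ k, |v k|) := by
    have h6 : 5 / 9 * (1 / Real.sqrt m) * m = 5 / 9 * Real.sqrt m := by
      have h7 : Real.sqrt m * Real.sqrt m = m := Real.mul_self_sqrt hm0.le
      have h8 : 0 < Real.sqrt m := Real.sqrt_pos.2 hm0
      field_simp
      nlinarith
    rw [h6] at hb2
    refine le_trans ?_ (le_abs_self _)
    linarith
  rw [mul_comm |(A.det : ℝ)|]
  exact mul_le_mul_of_nonneg_right h5 (abs_nonneg _)

end Pool.Agent.W69.MD
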